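import Mathlib

/-!
Degree-1 rank of quadratics with restricted range: the bound `p - 2` fails for all primes
`p ≡ 3 (mod 4)`.
-/

namespace Pool.Agent.Results.MP_d05de0_co.RankBoundFails

open MvPolynomial

section Defs

variable {n p : ℕ}

/-- Degree-`d` rank at most one: a product of polynomials of degree at most `d`. -/
def RankOne (d : ℕ) (P : MvPolynomial (Fin n) (ZMod p)) : Prop :=
  ∃ l : List (MvPolynomial (Fin n) (ZMod p)), (∀ q ∈ l, q.totalDegree ≤ d) ∧ l.prod = P

/-- `P = P_1 + ⋯ + P_k` with each `P_i` of degree-`d` rank at most one and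
`deg P_i ≤ deg P`. -/
def RankLE (d k : ℕ) (P : MvPolynomial (Fin n) (ZMod p)) : Prop :=
  ∃ f : Fin k → MvPolynomial (Fin n) (ZMod p),
    (∀ i, RankOne d (f i) ∧ (f i).totalDegree ≤ P.totalDegree) ∧ ∑ i, f i = P

/-- The degree-`d` rank, the least `k` as above. -/
noncomputable def rk (d : ℕ) (P : MvPolynomial (Fin n) (ZMod p)) : ℕ∞ :=
  sInf {r | ∃ k : ℕ, RankLE d k P ∧ r = k}

/-- The degree-`d` rank relative to `S`. -/
noncomputable def rkS (d : ℕ) (S : Set (ZMod p)) (P : MvPolynomial (Fin n) (ZMod p)) : ℕ∞ :=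
  sInf {r | ∃ P₀ : MvPolynomial (Fin n) (ZMod p), P₀.totalDegree ≤ P.totalDegree ∧
    (∀ x : Fin n → ZMod p, (∀ i, x i ∈ S) → eval x P₀ = 0) ∧ r = rk d (P - P₀)}

/-- The degree-`d` rank relative to `S`, up to constants. -/
noncomputable def rkBar (d : ℕ) (S : Set (ZMod p)) (P : MvPolynomial (Fin n) (ZMod p)) : ℕ∞ :=
  sInf {r | ∃ c : ZMod p, r = rkS d S (P - C c)}

end Defs

section Quad

set_option linter.unusedSectionVars false
set_option linter.unusedSimpArgs false

variable {p : ℕ} {σ : Type*} [Fintype σ]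

/-- Affine functions. -/
def AffF (f : (σ → ZMod p) → ZMod p) : Prop :=
  ∃ (c : ZMod p) (a : σ → ZMod p), ∀ u, f u = c + ∑ i, a i * u i

/-- Quadratic functions. -/
def QuadF (f : (σ → ZMod p) → ZMod p) : Prop :=
  ∃ (c : ZMod p) (a : σ → ZMod p) (M : σ → σ → ZMod p),
    ∀ u, f u = c + ∑ i, a i * u i + ∑ i, ∑ j, M i j * (u i * u j)

theorem AffF.const (c : ZMod p) : AffF (σ := σ) (fun _ => c) := ⟨c, 0, fun u => by simp⟩

theorem AffF.coord [DecidableEq σ] (c : ZMod p) (i : σ) : AffF (fun u : σ → ZMod p => c * u i) := by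
  refine ⟨0, fun j => if j = i then c else 0, fun u => ?_⟩
  simp

theorem AffF.add {f g : (σ → ZMod p) → ZMod p} (hf : AffF f) (hg : AffF g) :
    AffF (fun u => f u + g u) := by
  obtain ⟨c, a, h⟩ := hf
  obtain ⟨c', a', h'⟩ := hg
  refine ⟨c + c', a + a', fun u => ?_⟩
  simp only [h, h']
  simp only [Pi.add_apply, add_mul, Finset.sum_add_distrib]
  ring

theorem QuadF.add {f g : (σ → ZMod p) → ZMod p} (hf : QuadF f) (hg : QuadF g) :
    QuadF (fun u => f u + g u) := by
  obtain ⟨c, a, M, h⟩ := hf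
  obtain ⟨c', a', M', h'⟩ := hg
  refine ⟨c + c', a + a', M + M', fun u => ?_⟩
  simp only [h, h']
  simp only [Pi.add_apply, add_mul, Finset.sum_add_distrib]
  ring

theorem AffF.quad {f : (σ → ZMod p) → ZMod p} (hf : AffF f) : QuadF f := by
  obtain ⟨c, a, h⟩ := hf
  exact ⟨c, a, 0, fun u => by rw [h]; simp⟩

theorem AffF.mul {f g : (σ → ZMod p) → ZMod p} (hf : AffF f) (hg : AffF g) :
    QuadF (fun u => f u * g u) := by
  obtain ⟨c, a, h⟩ := hf
  obtain ⟨c', a', h'⟩ := hg
  refine ⟨c * c', fun i => c * a' i + c' * a i, fun i j => a i * a' j, fun u => ?_⟩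
  simp only [h, h']
  have e1 : ∑ i, ∑ j, a i * a' j * (u i * u j) = (∑ i, a i * u i) * (∑ j, a' j * u j) := by
    rw [Finset.sum_mul_sum]
    refine Finset.sum_congr rfl fun i _ => Finset.sum_congr rfl fun j _ => ?_
    ring
  have e2 : ∑ i, (c * a' i + c' * a i) * u i = c * (∑ i, a' i * u i) + c' * ∑ i, a i * u i := by
    rw [Finset.mul_sum, Finset.mul_sum, ← Finset.sum_add_distrib]
    refine Finset.sum_congr rfl fun i _ => ?_
    ring
  rw [e1, e2]
  ring

/-- Second difference at the origin. -/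
def DD (f : (σ → ZMod p) → ZMod p) (u v : σ → ZMod p) : ZMod p :=
  f (u + v) - f u - f v + f 0

theorem dd_aff {f : (σ → ZMod p) → ZMod p} (hf : AffF f) (u v : σ → ZMod p) : DD f u v = 0 := by
  obtain ⟨c, a, h⟩ := hf
  simp only [DD, h, Pi.add_apply, mul_add, Finset.sum_add_distrib, Pi.zero_apply, mul_zero,
    Finset.sum_const_zero]
  ring

theorem dd_mul {f g : (σ → ZMod p) → ZMod p} {c c' : ZMod p} {a a' : σ → ZMod p}
    (h : ∀ u, f u = c + ∑ i, a i * u i) (h' : ∀ u, g u = c' + ∑ i, a' i * u i)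
    (u v : σ → ZMod p) : DD (fun u => f u * g u) u v =
      (∑ i, a i * u i) * (∑ i, a' i * v i) + (∑ i, a i * v i) * (∑ i, a' i * u i) := by
  simp only [DD, h, h', Pi.add_apply, mul_add, Finset.sum_add_distrib, Pi.zero_apply, mul_zero,
    Finset.sum_const_zero]
  ring

theorem dd_quad {f : (σ → ZMod p) → ZMod p} (hf : QuadF f) (w u v : σ → ZMod p) :
    f (w + u + v) - f (w + u) - f (w + v) + f w = DD f u v := by
  obtain ⟨c, a, M, h⟩ := hf
  simp only [DD, h, Pi.add_apply, mul_add, add_mul, Finset.sum_add_distrib, Pi.zero_apply,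
    mul_zero, Finset.sum_const_zero]
  ring

theorem dd_smul {f : (σ → ZMod p) → ZMod p} (hf : QuadF f) (s t : ZMod p) (u v : σ → ZMod p) :
    DD f (s • u) (t • v) = s * t * DD f u v := by
  obtain ⟨c, a, M, h⟩ := hf
  have key : ∀ u v : σ → ZMod p, DD f u v = ∑ i, ∑ j, M i j * (u i * v j) +
      ∑ i, ∑ j, M i j * (v i * u j) := by
    intro u v
    simp only [DD, h, Pi.add_apply, mul_add, add_mul, Finset.sum_add_distrib, Pi.zero_apply,
      mul_zero, Finset.sum_const_zero]
    ring
  rw [key, key, mul_add, Finset.mul_sum, Finset.mul_sum]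
  congr 1
  · refine Finset.sum_congr rfl fun i _ => ?_
    rw [Finset.mul_sum]
    refine Finset.sum_congr rfl fun j _ => ?_
    simp only [Pi.smul_apply, smul_eq_mul]
    ring
  · refine Finset.sum_congr rfl fun i _ => ?_
    rw [Finset.mul_sum]
    refine Finset.sum_congr rfl fun j _ => ?_
    simp only [Pi.smul_apply, smul_eq_mul]
    ring

theorem mono_split [DecidableEq σ] {m : σ →₀ ℕ} (hm : m ≠ 0) (c : ZMod p) :
    ∃ (i : σ) (m' : σ →₀ ℕ), m'.degree + 1 = m.degree ∧
      monomial m c = X i * monomial m' c := by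
  obtain ⟨i, hi⟩ := Finsupp.ne_iff.1 hm
  have h1 : Finsupp.single i 1 ≤ m := by
    rw [Finsupp.single_le_iff]
    simp only [Finsupp.coe_zero, Pi.zero_apply] at hi
    omega
  refine ⟨i, m - Finsupp.single i 1, ?_, ?_⟩
  · have h2 : m = (m - Finsupp.single i 1) + Finsupp.single i 1 := (tsub_add_cancel_of_le h1).symm
    conv_rhs => rw [h2]
    rw [map_add, Finsupp.degree_single]
  · rw [X, monomial_mul, one_mul, add_tsub_cancel_of_le h1]

theorem mono_aff [DecidableEq σ] {m : σ →₀ ℕ} (hm : m.degree ≤ 1) (c : ZMod p) :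
    AffF (fun u => eval u (monomial m c)) := by
  by_cases h0 : m = 0
  · subst h0
    have : (fun u : σ → ZMod p => eval u (monomial 0 c)) = fun _ => c := by
      funext u; simp
    rw [this]
    exact AffF.const c
  · obtain ⟨i, m', h1, h2⟩ := mono_split h0 c
    have h3 : m' = 0 := by
      rw [← Finsupp.degree_eq_zero_iff]; omega
    subst h3
    have : (fun u : σ → ZMod p => eval u (monomial m c)) = fun u => c * u i := by
      funext u; rw [h2]; simp [mul_comm]
    rw [this]
    exact AffF.coord c i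

theorem mono_quad [DecidableEq σ] {m : σ →₀ ℕ} (hm : m.degree ≤ 2) (c : ZMod p) :
    QuadF (fun u => eval u (monomial m c)) := by
  by_cases h0 : m = 0
  · subst h0
    exact (mono_aff (by simp) c).quad
  · obtain ⟨i, m', h1, h2⟩ := mono_split h0 c
    have : (fun u : σ → ZMod p => eval u (monomial m c)) =
        fun u => (1 * u i) * eval u (monomial m' c) := by
      funext u; rw [h2]; simp
    rw [this]
    exact (AffF.coord 1 i).mul (mono_aff (by omega) c)

theorem aff_of_deg [DecidableEq σ] {P : MvPolynomial σ (ZMod p)} (h : P.totalDegree ≤ 1) :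
    AffF (fun u => eval u P) := by
  have key : ∀ s : Finset (σ →₀ ℕ), (∀ m ∈ s, m.degree ≤ 1) →
      AffF (fun u => eval u (∑ m ∈ s, monomial m (coeff m P))) := by
    intro s
    induction s using Finset.induction_on with
    | empty => intro _; simpa using AffF.const (σ := σ) (0 : ZMod p)
    | insert m s hms ih =>
      intro hs
      simp only [Finset.sum_insert hms, map_add]
      exact (mono_aff (hs m (Finset.mem_insert_self m s)) _).add
        (ih fun m' hm' => hs m' (Finset.mem_insert_of_mem hm'))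
  have := key P.support (fun m hm => by
    have := le_totalDegree hm
    exact this.trans h)
  rwa [support_sum_monomial_coeff] at this

theorem quad_of_deg [DecidableEq σ] {P : MvPolynomial σ (ZMod p)} (h : P.totalDegree ≤ 2) :
    QuadF (fun u => eval u P) := by
  have key : ∀ s : Finset (σ →₀ ℕ), (∀ m ∈ s, m.degree ≤ 2) →
      QuadF (fun u => eval u (∑ m ∈ s, monomial m (coeff m P))) := by
    intro s
    induction s using Finset.induction_on with
    | empty => intro _; simpa using (AffF.const (σ := σ) (0 : ZMod p)).quad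
    | insert m s hms ih =>
      intro hs
      simp only [Finset.sum_insert hms, map_add]
      exact (mono_quad (hs m (Finset.mem_insert_self m s)) _).add
        (ih fun m' hm' => hs m' (Finset.mem_insert_of_mem hm'))
  have := key P.support (fun m hm => by
    have := le_totalDegree hm
    exact this.trans h)
  rwa [support_sum_monomial_coeff] at this

variable [Fact p.Prime]

/-- A product of affine polynomials of total degree at most two is, to second order, a product
of two linear forms. -/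
theorem dd_list [DecidableEq σ] (l : List (MvPolynomial σ (ZMod p))) :
    (∀ q ∈ l, q.totalDegree ≤ 1) → l.prod.totalDegree ≤ 2 →
    ∃ α β : σ → ZMod p, ∀ u v, DD (fun u => eval u l.prod) u v =
      (∑ i, α i * u i) * (∑ i, β i * v i) + (∑ i, α i * v i) * (∑ i, β i * u i) := by
  induction l with
  | nil =>
    intro _ _
    refine ⟨0, 0, fun u v => ?_⟩
    simp [DD]
  | cons a l ih =>
    intro hl hd
    have ha : a.totalDegree ≤ 1 := hl a (by simp)
    have hl' : ∀ q ∈ l, q.totalDegree ≤ 1 := fun q hq => hl q (List.mem_cons_of_mem a hq)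
    rw [List.prod_cons] at hd ⊢
    by_cases h0 : a * l.prod = 0
    · refine ⟨0, 0, fun u v => ?_⟩
      rw [h0]
      simp [DD]
    · have ha0 : a ≠ 0 := left_ne_zero_of_mul h0
      have hp0 : l.prod ≠ 0 := right_ne_zero_of_mul h0
      rw [totalDegree_mul_of_isDomain ha0 hp0] at hd
      rcases Nat.lt_or_ge a.totalDegree 1 with h1 | h1
      · obtain ⟨α, β, h⟩ := ih hl' (by omega)
        have h2 : a = C (coeff 0 a) := totalDegree_eq_zero_iff_eq_C.1 (by omega)
        refine ⟨fun i => coeff 0 a * α i, β, fun u v => ?_⟩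
        have h3 : (fun u => eval u (a * l.prod)) = fun u => coeff 0 a * eval u l.prod := by
          funext u
          rw [eval_mul]
          conv_lhs => rw [h2]
          rw [eval_C]
        rw [h3]
        have h4 := h u v
        simp only [DD] at h4 ⊢
        simp only [mul_assoc]
        rw [← Finset.mul_sum, ← Finset.mul_sum]
        linear_combination coeff 0 a * h4
      · obtain ⟨c, α, h⟩ := aff_of_deg ha
        obtain ⟨c', β, h'⟩ := aff_of_deg (P := l.prod) (by omega)
        refine ⟨α, β, fun u v => ?_⟩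
        have h3 : (fun u => eval u (a * l.prod)) = fun u => eval u a * eval u l.prod := by
          funext u
          rw [eval_mul]
        rw [h3]
        exact dd_mul h h' u v

end Quad

section LinAlg

variable {F : Type*} [Field F] {m : ℕ}

open Matrix

/-- The hyperbolic Gram matrix. -/
def H (F : Type*) [Field F] (m : ℕ) : Matrix (Fin m ⊕ Fin m) (Fin m ⊕ Fin m) F :=
  fromBlocks 0 1 1 0

theorem H_symm : (H F m)ᵀ = H F m := by
  simp [H, fromBlocks_transpose]

theorem det_H : (H F m).det = (-1) ^ m := by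
  have h1 : H F m * fromBlocks 1 0 1 1 = fromBlocks 1 1 1 0 := by
    rw [H, fromBlocks_multiply]
    simp
  have h2 : (fromBlocks 1 0 1 1 : Matrix (Fin m ⊕ Fin m) (Fin m ⊕ Fin m) F).det = 1 := by
    rw [det_fromBlocks_one₁₁]; simp
  have h3 : (fromBlocks 1 1 1 0 : Matrix (Fin m ⊕ Fin m) (Fin m ⊕ Fin m) F).det = (-1) ^ m := by
    rw [det_fromBlocks_one₁₁]
    simp [det_neg]
  have h4 := congrArg det h1
  rw [det_mul, h2, h3, mul_one] at h4
  exact h4

/-- The linear algebra behind the lower bound. -/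
theorem square_of_rep (T₁ T₂ : Matrix (Fin m ⊕ Fin m) (Fin m ⊕ Fin m) F) (h2 : (2 : F) ≠ 0)
    (hA : ∀ s t, s ≠ t → (T₁ᵀ * H F m * T₁) s t = 0)
    (hD : ∀ s t, s ≠ t → (T₂ᵀ * H F m * T₂) s t = 0)
    (hB : T₁ᵀ * H F m * T₂ = fromBlocks 1 (-1) 1 1) :
    ∃ z : F, z ^ 2 = (-1) ^ m := by
  set B : Matrix (Fin m ⊕ Fin m) (Fin m ⊕ Fin m) F := fromBlocks 1 (-1) 1 1 with hBdef
  set A := T₁ᵀ * H F m * T₁ with hAdef
  set D := T₂ᵀ * H F m * T₂ with hDdef
  have hBB : B * Bᵀ = (2 : F) • 1 := by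
    rw [hBdef, fromBlocks_transpose, fromBlocks_multiply, ← fromBlocks_one, fromBlocks_smul]
    simp only [transpose_one, transpose_neg, mul_one, mul_neg, neg_neg]
    congr 1
    · rw [two_smul]
    · simp
    · simp
    · rw [two_smul]
  have h1 : (T₁ᵀ * H F m) * (T₂ * ((2 : F)⁻¹ • Bᵀ)) = 1 := by
    rw [← Matrix.mul_assoc, hB, Matrix.mul_smul, hBB, smul_smul, inv_mul_cancel₀ h2, one_smul]
  have h3 : (T₂ * ((2 : F)⁻¹ • Bᵀ)) * (T₁ᵀ * H F m) = 1 := mul_eq_one_comm.1 h1
  have h4 : (H F m * T₁) * (((2 : F)⁻¹ • B) * T₂ᵀ) = 1 := by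
    have := congrArg transpose h3
    rw [transpose_mul, transpose_mul, transpose_mul, transpose_transpose, H_symm,
      transpose_smul, transpose_transpose, transpose_one] at this
    exact this
  have h5 : A * (B * D * Bᵀ) = (4 : F) • 1 := by
    have e1 : A * (B * D * Bᵀ) = (2 : F) • (T₁ᵀ * ((H F m * T₁) * (((2 : F)⁻¹ • B) * T₂ᵀ)) *
        H F m * T₂ * Bᵀ) := by
      rw [hAdef, hDdef]
      simp only [Matrix.smul_mul, Matrix.mul_smul, smul_smul, mul_inv_cancel₀ h2, one_smul]
      simp only [Matrix.mul_assoc]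
    rw [e1, h4, Matrix.mul_one, hB, hBB, smul_smul]
    norm_num
  have hDd : D = diagonal (fun s => D s s) := by
    ext s t
    by_cases h : s = t
    · subst h; simp
    · rw [diagonal_apply_ne _ h, hD s t h]
  have hAd : A = diagonal (fun s => A s s) := by
    ext s t
    by_cases h : s = t
    · subst h; simp
    · rw [diagonal_apply_ne _ h, hA s t h]
  have hE : ∀ j, (B * D * Bᵀ) (Sum.inl j) (Sum.inl j) = (B * D * Bᵀ) (Sum.inr j) (Sum.inr j) := by
    intro j
    rw [hDd]
    simp only [Matrix.mul_apply, Fintype.sum_sum_type, transpose_apply, hBdef,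
      fromBlocks_apply₁₁, fromBlocks_apply₁₂, fromBlocks_apply₂₁,
      fromBlocks_apply₂₂]
    simp [Matrix.one_apply]
  have hAE : ∀ s, A s s * (B * D * Bᵀ) s s = 4 := by
    intro s
    have := congrFun (congrFun h5 s) s
    rw [hAd, Matrix.diagonal_mul] at this
    simpa using this
  have h44 : (4 : F) ≠ 0 := by
    have : (4 : F) = 2 * 2 := by norm_num
    rw [this]; exact mul_ne_zero h2 h2
  have hAeq : ∀ j, A (Sum.inr j) (Sum.inr j) = A (Sum.inl j) (Sum.inl j) := by
    intro j
    have e1 := hAE (Sum.inl j)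
    have e2 := hAE (Sum.inr j)
    rw [← hE j, ← e1] at e2
    have h0 : (B * D * Bᵀ) (Sum.inl j) (Sum.inl j) ≠ 0 := by
      intro h0
      rw [h0, mul_zero] at e1
      exact h44 e1.symm
    exact mul_right_cancel₀ h0 e2
  have hdet : A.det = (∏ j, A (Sum.inl j) (Sum.inl j)) ^ 2 := by
    rw [hAd, det_diagonal, Fintype.prod_sum_type]
    simp only [diagonal_apply_eq]
    simp only [hAeq]
    rw [sq]
  have hdet2 : A.det = T₁.det ^ 2 * (-1) ^ m := by
    rw [hAdef, det_mul, det_mul, det_transpose, det_H]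
    ring
  have hT : T₁.det ≠ 0 := by
    intro h0
    have := congrArg det h5
    rw [det_mul, hdet2, h0, det_smul, det_one] at this
    simp at this
    exact absurd this.symm (pow_ne_zero _ h44)
  refine ⟨(∏ j, A (Sum.inl j) (Sum.inl j)) / T₁.det, ?_⟩
  rw [div_pow, ← hdet, hdet2]
  field_simp

end LinAlg

section Main

open Matrix

variable {p : ℕ} [Fact p.Prime] {m : ℕ}

/-- Index of variable `a` in block `j`. -/
def idx (m : ℕ) (j : Fin m) (a : Fin 4) : Fin (m * 4) := finProdFinEquiv (j, a)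

theorem idx_inj {m : ℕ} {j j' : Fin m} {a a' : Fin 4} :
    idx m j a = idx m j' a' ↔ j = j' ∧ a = a' := by
  simp only [idx, EmbeddingLike.apply_eq_iff_eq, Prod.mk.injEq]

/-- The counterexample: `m` disjoint copies of `y₁y₂ + y₂y₃ + y₃y₄ - y₁y₄`. -/
noncomputable def Pex (p m : ℕ) : MvPolynomial (Fin (m * 4)) (ZMod p) :=
  ∑ j : Fin m, (X (idx m j 0) * X (idx m j 1) + X (idx m j 1) * X (idx m j 2) +
    X (idx m j 2) * X (idx m j 3) - X (idx m j 0) * X (idx m j 3))

theorem eval_Pex (u : Fin (m * 4) → ZMod p) : eval u (Pex p m) =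
    ∑ j : Fin m, (u (idx m j 0) * u (idx m j 1) + u (idx m j 1) * u (idx m j 2) +
      u (idx m j 2) * u (idx m j 3) - u (idx m j 0) * u (idx m j 3)) := by
  simp [Pex]

theorem dd_Pex (u v : Fin (m * 4) → ZMod p) : DD (fun u => eval u (Pex p m)) u v =
    ∑ j : Fin m, ((u (idx m j 0) * v (idx m j 1) + u (idx m j 1) * v (idx m j 0)) +
      (u (idx m j 1) * v (idx m j 2) + u (idx m j 2) * v (idx m j 1)) +
      (u (idx m j 2) * v (idx m j 3) + u (idx m j 3) * v (idx m j 2)) -
      (u (idx m j 0) * v (idx m j 3) + u (idx m j 3) * v (idx m j 0))) := by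
  simp only [DD, eval_Pex, Pi.add_apply, Pi.zero_apply]
  rw [← Finset.sum_sub_distrib, ← Finset.sum_sub_distrib, ← Finset.sum_add_distrib]
  refine Finset.sum_congr rfl fun j _ => ?_
  ring

/-- Standard basis vector of a block variable. -/
def bas (p : ℕ) {m : ℕ} (j : Fin m) (a : Fin 4) : Fin (m * 4) → ZMod p :=
  Pi.single (idx m j a) 1

theorem bas_apply (j j' : Fin m) (a a' : Fin 4) :
    bas p j a (idx m j' a') = if j' = j ∧ a' = a then 1 else 0 := by
  simp only [bas, Pi.single_apply, idx_inj]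

/-- The odd variables `y₁, y₃` of the blocks. -/
def odd4 (s : Fin m ⊕ Fin m) : Fin m × Fin 4 := Sum.elim (fun j => (j, 0)) (fun j => (j, 2)) s

/-- The even variables `y₂, y₄` of the blocks. -/
def even4 (s : Fin m ⊕ Fin m) : Fin m × Fin 4 := Sum.elim (fun j => (j, 1)) (fun j => (j, 3)) s

/-- Basis vector indexed by a pair. -/
def bv (p : ℕ) {m : ℕ} (s : Fin m × Fin 4) : Fin (m * 4) → ZMod p := bas p s.1 s.2

theorem dd_odd (s t : Fin m ⊕ Fin m) :
    DD (fun u => eval u (Pex p m)) (bv p (odd4 s)) (bv p (odd4 t)) = 0 := by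
  rw [dd_Pex]
  apply Finset.sum_eq_zero
  intro j _
  rcases s with s | s <;> rcases t with t | t <;>
    simp [bv, odd4, bas_apply]

theorem dd_even (s t : Fin m ⊕ Fin m) :
    DD (fun u => eval u (Pex p m)) (bv p (even4 s)) (bv p (even4 t)) = 0 := by
  rw [dd_Pex]
  apply Finset.sum_eq_zero
  intro j _
  rcases s with s | s <;> rcases t with t | t <;>
    simp [bv, even4, bas_apply]

theorem dd_mixed (s t : Fin m ⊕ Fin m) :
    DD (fun u => eval u (Pex p m)) (bv p (odd4 s)) (bv p (even4 t)) =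
      (fromBlocks 1 (-1) 1 1 : Matrix (Fin m ⊕ Fin m) (Fin m ⊕ Fin m) (ZMod p)) s t := by
  rw [dd_Pex]
  rcases s with s | s <;> rcases t with t | t <;>
    simp [bv, odd4, even4, bas_apply, Matrix.one_apply, eq_comm]

/-- A quadratic polynomial vanishing on `{1,-1}ⁿ` has no mixed second differences. -/
theorem dd_vanish {n : ℕ} {Q : MvPolynomial (Fin n) (ZMod p)} (hp2 : (2 : ZMod p) ≠ 0)
    (hQ : Q.totalDegree ≤ 2)
    (hS : ∀ x : Fin n → ZMod p, (∀ i, x i ∈ ({1, -1} : Set (ZMod p))) → eval x Q = 0)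
    {s t : Fin n} (hst : s ≠ t) :
    DD (fun u => eval u Q) (Pi.single s 1) (Pi.single t 1) = 0 := by
  have hq := quad_of_deg hQ
  have h1 := dd_quad hq (fun i => if i = s ∨ i = t then -1 else 1)
    ((2 : ZMod p) • Pi.single s 1) ((2 : ZMod p) • Pi.single t 1)
  rw [dd_smul hq] at h1
  have h2 : ∀ (a b : ZMod p), (a = 0 ∨ a = 2) → (b = 0 ∨ b = 2) →
      eval ((fun i => if i = s ∨ i = t then -1 else 1) + a • (Pi.single s (1 : ZMod p)) +
        b • (Pi.single t (1 : ZMod p))) Q = 0 := by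
    intro a b ha hb
    apply hS
    intro i
    simp only [Pi.add_apply, Pi.smul_apply, Pi.single_apply, smul_eq_mul,
      Set.mem_insert_iff, Set.mem_singleton_iff]
    by_cases his : i = s
    · have hit : i ≠ t := fun e => hst (his.symm.trans e)
      rw [if_pos (Or.inl his), if_pos his, if_neg hit]
      rcases ha with rfl | rfl
      · right; ring
      · left; ring
    · by_cases hit : i = t
      · rw [if_pos (Or.inr hit), if_neg his, if_pos hit]
        rcases hb with rfl | rfl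
        · right; ring
        · left; ring
      · rw [if_neg (by rintro (h | h) <;> contradiction), if_neg his, if_neg hit]
        left; ring
  have e1 := h2 2 2 (Or.inr rfl) (Or.inr rfl)
  have e2 := h2 2 0 (Or.inr rfl) (Or.inl rfl)
  have e3 := h2 0 2 (Or.inl rfl) (Or.inr rfl)
  have e4 := h2 0 0 (Or.inl rfl) (Or.inl rfl)
  simp only [zero_smul, add_zero] at e2 e3 e4
  simp only [e1, e2, e3, e4, sub_zero, add_zero] at h1
  have h3 : (2 : ZMod p) * 2 ≠ 0 := mul_ne_zero hp2 hp2
  exact (mul_eq_zero.1 h1.symm).resolve_left h3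

theorem deg_Pex_le : (Pex p m).totalDegree ≤ 2 := by
  have hX : ∀ i : Fin (m * 4), (X i : MvPolynomial (Fin (m * 4)) (ZMod p)).totalDegree ≤ 1 :=
    fun i => by rw [totalDegree_X]
  have hXX : ∀ i j : Fin (m * 4),
      (X i * X j : MvPolynomial (Fin (m * 4)) (ZMod p)).totalDegree ≤ 2 :=
    fun i j => (totalDegree_mul _ _).trans (add_le_add (hX i) (hX j))
  apply totalDegree_finsetSum_le
  intro j _
  refine (totalDegree_sub _ _).trans (max_le ?_ (hXX _ _))
  refine (totalDegree_add _ _).trans (max_le ?_ (hXX _ _))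
  exact (totalDegree_add _ _).trans (max_le (hXX _ _) (hXX _ _))

theorem deg_Pex (hm : 0 < m) : (Pex p m).totalDegree = 2 := by
  refine le_antisymm deg_Pex_le ?_
  by_contra hcon
  have h1 := aff_of_deg (P := Pex p m) (by omega)
  have h2 := dd_aff h1 (bv p (odd4 (Sum.inl ⟨0, hm⟩))) (bv p (even4 (Sum.inl ⟨0, hm⟩)))
  rw [dd_mixed] at h2
  simp at h2

/-- The main rank bound. -/
theorem rank_lower (hp2 : (2 : ZMod p) ≠ 0) {k : ℕ} (hk : k ≤ m)
    (hsq : ¬ ∃ z : ZMod p, z ^ 2 = (-1) ^ m)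
    (c : ZMod p) (P₀ : MvPolynomial (Fin (m * 4)) (ZMod p)) (hd : P₀.totalDegree ≤ 2)
    (hS : ∀ x : Fin (m * 4) → ZMod p, (∀ i, x i ∈ ({1, -1} : Set (ZMod p))) → eval x P₀ = 0) :
    ¬ RankLE 1 k (Pex p m - C c - P₀) := by
  rintro ⟨f, hf, hsum⟩
  have hdeg : (Pex p m - C c - P₀).totalDegree ≤ 2 := by
    refine (totalDegree_sub _ _).trans (max_le ?_ hd)
    refine (totalDegree_sub _ _).trans (max_le deg_Pex_le ?_)
    rw [totalDegree_C]; omega
  have h1 : ∀ i : Fin k, ∃ αβ : (Fin (m * 4) → ZMod p) × (Fin (m * 4) → ZMod p),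
      ∀ u v, DD (fun u => eval u (f i)) u v =
      (∑ j, αβ.1 j * u j) * (∑ j, αβ.2 j * v j) + (∑ j, αβ.1 j * v j) * (∑ j, αβ.2 j * u j) := by
    intro i
    obtain ⟨⟨l, hl, hlf⟩, h2⟩ := hf i
    obtain ⟨α, β, h⟩ := dd_list l hl (by rw [hlf]; exact h2.trans hdeg)
    rw [hlf] at h
    exact ⟨(α, β), h⟩
  choose αβ hαβ using h1
  -- pad to `m` terms
  let α : Fin m → Fin (m * 4) → ZMod p := fun i =>
    if h : (i : ℕ) < k then (αβ ⟨i, h⟩).1 else 0
  let β : Fin m → Fin (m * 4) → ZMod p := fun i =>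
    if h : (i : ℕ) < k then (αβ ⟨i, h⟩).2 else 0
  have hpad : ∀ g : Fin m → ZMod p, (∀ i : Fin m, ¬ (i : ℕ) < k → g i = 0) →
      ∑ i : Fin m, g i = ∑ i : Fin k, g (Fin.castLE hk i) := by
    intro g hg
    rw [← Finset.sum_image (f := g) (g := Fin.castLE hk) (s := Finset.univ)
      (fun x _ y _ h => Fin.castLE_injective hk h)]
    symm
    apply Finset.sum_subset (Finset.subset_univ _)
    intro i _ hi
    apply hg
    intro hik
    apply hi
    rw [Finset.mem_image]
    exact ⟨⟨i, hik⟩, Finset.mem_univ _, rfl⟩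
  have hG : ∀ s t : Fin (m * 4), s ≠ t →
      DD (fun u => eval u (Pex p m)) (Pi.single s 1) (Pi.single t 1) =
        ∑ i, (α i s * β i t + α i t * β i s) := by
    intro s t hst
    have e1 := dd_vanish hp2 hd hS hst
    have e2 : DD (fun u => eval u (Pex p m - C c - P₀)) (Pi.single s 1) (Pi.single t 1) =
        DD (fun u => eval u (Pex p m)) (Pi.single s 1) (Pi.single t 1) := by
      simp only [DD, map_sub, eval_C] at e1 ⊢
      linear_combination (-1 : ZMod p) * e1
    rw [← e2, ← hsum]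
    have e3 : DD (fun u => eval u (∑ i, f i)) (Pi.single s 1) (Pi.single t 1) =
        ∑ i, DD (fun u => eval u (f i)) (Pi.single s (1 : ZMod p)) (Pi.single t 1) := by
      simp only [DD, map_sum]
      rw [Finset.sum_add_distrib, Finset.sum_sub_distrib, Finset.sum_sub_distrib]
    rw [e3, hpad]
    · refine Finset.sum_congr rfl fun i _ => ?_
      rw [hαβ i]
      simp only [Pi.single_apply, mul_ite, mul_one, mul_zero, Finset.sum_ite_eq',
        Finset.mem_univ, if_true]
      have hi : ((Fin.castLE hk i : Fin m) : ℕ) < k := i.2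
      simp only [α, β, dif_pos hi]
      rfl
    · intro i hi
      simp only [α, β, dif_neg hi, Pi.zero_apply]
      ring
  -- assemble the matrices
  let T : (Fin m ⊕ Fin m → Fin m × Fin 4) → Matrix (Fin m ⊕ Fin m) (Fin m ⊕ Fin m) (ZMod p) :=
    fun w => Matrix.of fun r s => Sum.elim (fun i => α i (idx m (w s).1 (w s).2))
      (fun i => β i (idx m (w s).1 (w s).2)) r
  have hT : ∀ w w' s t, ((T w)ᵀ * H (ZMod p) m * (T w')) s t =
      ∑ i, (α i (idx m (w s).1 (w s).2) * β i (idx m (w' t).1 (w' t).2) +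
        α i (idx m (w' t).1 (w' t).2) * β i (idx m (w s).1 (w s).2)) := by
    intro w w' s t
    have e1 : ∀ r, ((T w)ᵀ * H (ZMod p) m) s r = (T w) (Sum.swap r) s := by
      intro r
      rw [Matrix.mul_apply, Fintype.sum_sum_type]
      rcases r with r | r
      · simp [H, Matrix.one_apply]
      · simp [H, Matrix.one_apply]
    rw [Matrix.mul_apply, Fintype.sum_sum_type]
    simp only [e1, Sum.swap_inl, Sum.swap_inr]
    simp only [T, Matrix.of_apply, Sum.elim_inl, Sum.elim_inr]
    rw [← Finset.sum_add_distrib]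
    refine Finset.sum_congr rfl fun i _ => ?_
    ring
  apply hsq
  apply square_of_rep (T odd4) (T even4) hp2
  · intro s t hst
    rw [hT, ← hG]
    · exact dd_odd s t
    · intro e
      rw [idx_inj] at e
      apply hst
      rcases s with s | s <;> rcases t with t | t <;> simp [odd4] at e ⊢ <;> exact e
  · intro s t hst
    rw [hT, ← hG]
    · exact dd_even s t
    · intro e
      rw [idx_inj] at e
      apply hst
      rcases s with s | s <;> rcases t with t | t <;> simp [even4] at e ⊢ <;> exact e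
  · ext s t
    rw [hT, ← hG]
    · exact dd_mixed s t
    · intro e
      rw [idx_inj] at e
      rcases s with s | s <;> rcases t with t | t <;> simp [odd4, even4] at e

/-- The counterexample never vanishes on `{1,-1}ⁿ`. -/
theorem Pex_ne_zero (hp : 3 ≤ p) (hm : m = p - 2) (hodd : Odd m) (x : Fin (m * 4) → ZMod p)
    (hx : ∀ i, x i ∈ ({1, -1} : Set (ZMod p))) : eval x (Pex p m) ≠ 0 := by
  rw [eval_Pex]
  have h1 : ∀ j : Fin m, ∃ ε : ℤ, (ε = 1 ∨ ε = -1) ∧
      (x (idx m j 0) * x (idx m j 1) + x (idx m j 1) * x (idx m j 2) +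
      x (idx m j 2) * x (idx m j 3) - x (idx m j 0) * x (idx m j 3)) = 2 * (ε : ZMod p) := by
    intro j
    have a0 := hx (idx m j 0)
    have a1 := hx (idx m j 1)
    have a2 := hx (idx m j 2)
    have a3 := hx (idx m j 3)
    simp only [Set.mem_insert_iff, Set.mem_singleton_iff] at a0 a1 a2 a3
    rcases a0 with a0 | a0 <;> rcases a1 with a1 | a1 <;> rcases a2 with a2 | a2 <;>
      rcases a3 with a3 | a3 <;> rw [a0, a1, a2, a3] <;>
      first
        | exact ⟨1, Or.inl rfl, by push_cast; ring1⟩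
        | exact ⟨-1, Or.inr rfl, by push_cast; ring1⟩
  choose ε hε1 hε2 using h1
  simp only [hε2]
  rw [← Finset.mul_sum]
  have hp2 : (2 : ZMod p) ≠ 0 := by
    intro h
    have h2 : ((2 : ℕ) : ZMod p) = 0 := by exact_mod_cast h
    rw [ZMod.natCast_eq_zero_iff] at h2
    have := Nat.le_of_dvd (by norm_num) h2
    omega
  apply mul_ne_zero hp2
  have h3 : (∑ j, (ε j : ZMod p)) = ((∑ j, ε j : ℤ) : ZMod p) := by push_cast; rfl
  rw [h3, Ne, ZMod.intCast_zmod_eq_zero_iff_dvd]
  intro hdvd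
  have h4 : |∑ j, ε j| ≤ m := by
    calc |∑ j, ε j| ≤ ∑ j, |ε j| := Finset.abs_sum_le_sum_abs _ _
      _ ≤ ∑ _j : Fin m, 1 := Finset.sum_le_sum fun j _ => by
          rcases hε1 j with h | h <;> rw [h] <;> norm_num
      _ = m := by simp
  have h5 : ∑ j, ε j = 0 := by
    apply Int.eq_zero_of_abs_lt_dvd hdvd
    have : (m : ℤ) < p := by omega
    linarith
  have h6 : ∀ j, ∃ d : ℤ, ε j = 1 + 2 * d := by
    intro j
    rcases hε1 j with h | h
    · exact ⟨0, by rw [h]; norm_num⟩
    · exact ⟨-1, by rw [h]; norm_num⟩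
  choose d hd using h6
  have h7 : ∑ j, ε j = m + 2 * ∑ j, d j := by
    simp only [hd, Finset.sum_add_distrib, ← Finset.mul_sum]
    simp
  obtain ⟨w, hw⟩ := hodd
  omega

/-- **Disproof of Q1** for every prime `p ≡ 3 (mod 4)`. -/
theorem result (p : ℕ) [hpf : Fact p.Prime] (hp : p % 4 = 3) :
    ∃ (n : ℕ) (S : Set (ZMod p)) (P : MvPolynomial (Fin n) (ZMod p)),
      1 ≤ n ∧ S.Nonempty ∧ P.totalDegree = 2 ∧
      (∃ v, ∀ x : Fin n → ZMod p, (∀ i, x i ∈ S) → eval x P ≠ v) ∧
      ((p - 2 : ℕ) : ℕ∞) < rkBar 1 S P := by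
  have hp3 : 3 ≤ p := by omega
  obtain ⟨m, hm⟩ : ∃ m, m = p - 2 := ⟨_, rfl⟩
  have hm0 : 0 < m := by omega
  have hodd : Odd m := ⟨(p - 3) / 2, by omega⟩
  have hp2 : (2 : ZMod p) ≠ 0 := by
    intro h
    have h2 : ((2 : ℕ) : ZMod p) = 0 := by exact_mod_cast h
    rw [ZMod.natCast_eq_zero_iff] at h2
    have := Nat.le_of_dvd (by norm_num) h2
    omega
  have hsq : ¬ ∃ z : ZMod p, z ^ 2 = (-1) ^ m := by
    rintro ⟨z, hz⟩
    rw [hodd.neg_one_pow] at hz
    have h1 : IsSquare (-1 : ZMod p) := ⟨z, by rw [← hz, sq]⟩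
    exact (ZMod.exists_sq_eq_neg_one_iff.1 h1) hp
  refine ⟨m * 4, {1, -1}, Pex p m, by omega, ⟨1, by simp⟩, deg_Pex hm0,
    ⟨0, Pex_ne_zero hp3 hm hodd⟩, ?_⟩
  have key : ((m + 1 : ℕ) : ℕ∞) ≤ rkBar 1 {1, -1} (Pex p m) := by
    apply le_sInf
    rintro _ ⟨c, rfl⟩
    apply le_sInf
    rintro _ ⟨P₀, hd, hS, rfl⟩
    apply le_sInf
    rintro _ ⟨k, hk, rfl⟩
    have hd2 : P₀.totalDegree ≤ 2 := by
      refine hd.trans ?_
      refine (totalDegree_sub _ _).trans (max_le deg_Pex_le ?_)
      rw [totalDegree_C]; omega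
    by_contra hcon
    have hkm : k ≤ m := by
      rw [not_le] at hcon
      have : k < m + 1 := by exact_mod_cast hcon
      omega
    exact rank_lower hp2 hkm hsq c P₀ hd2 hS hk
  refine lt_of_lt_of_le ?_ key
  rw [← hm]
  exact_mod_cast Nat.lt_succ_self m

end Main

end Pool.Agent.Results.MP_d05de0_co.RankBoundFails
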